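import Pool.Agent.H85.Rigid.Gen

/-!
# Circulant matrices of finite abelian groups are not rigid over any field of characteristic zero
-/

set_option autoImplicit false

open Filter

namespace Pool.Agent.Results.MP_aac87f_lc.NoRigidGroupCirculant

/-- The rigidity `R_M(r)` of a square matrix `M` over `F`: the least number of entries of `M` that
must be changed, to values in `F`, to obtain a matrix of rank at most `r` over `F`. -/
noncomputable def rigidity {F : Type} [Field F] {n : Type} [Fintype n] (M : Matrix n n F)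
    (r : ℝ) : ℕ :=
  sInf {s : ℕ | ∃ M' : Matrix n n F, (M'.rank : ℝ) ≤ r ∧
    {p : n × n | M' p.1 p.2 ≠ M p.1 p.2}.ncard = s}

/-- A family of square matrices `M k` of sizes `N k → ∞` over `F` is rigid over `F`: there is
`ε > 0` with `R_(M k)(ε N k) ≥ (N k)^(1+ε)` for all `k`. -/
def RigidFamily {F : Type} [Field F] {n : ℕ → Type} [∀ k, Fintype (n k)]
    (M : ∀ k, Matrix (n k) (n k) F) : Prop :=
  Tendsto (fun k => Fintype.card (n k)) atTop atTop ∧
    ∃ ε : ℝ, 0 < ε ∧ ∀ k, (Fintype.card (n k) : ℝ) ^ (1 + ε) ≤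
      (rigidity (M k) (ε * (Fintype.card (n k) : ℝ)) : ℝ)

/-- The `G`-circulant matrix of `f`, with `(g, h)` entry `f (g h⁻¹)`. -/
def groupCirculant {F G : Type} [Group G] (f : G → F) : Matrix G G F :=
  Matrix.of fun g h => f (g * h⁻¹)

private lemma uniform (ε : ℝ) (hε : 0 < ε) : ∃ N₀ : ℕ, ∀ (F : Type) [Field F] [CharZero F]
    (G : Type) [CommGroup G] [Fintype G], N₀ ≤ Fintype.card G → ∀ f : G → F, ∃ t : ℝ,
      t < (Fintype.card G : ℝ) ^ ε ∧ ∃ M' : Matrix G G F,
        (M'.rank : ℝ) ≤ ε * (Fintype.card G : ℝ) ∧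
        (∀ g, (({h | M' g h ≠ groupCirculant f g h} : Set G).ncard : ℝ) ≤ t) ∧
        (∀ h, (({g | M' g h ≠ groupCirculant f g h} : Set G).ncard : ℝ) ≤ t) := by
  classical
  obtain ⟨N₀, hN₀⟩ := Pool.Agent.H85.Rigid.main_uniform ε hε
  refine ⟨N₀, ?_⟩
  intro F _ _ G _ _ hG f
  have hcard : Fintype.card (Additive G) = Fintype.card G :=
    Fintype.card_congr Additive.toMul
  obtain ⟨t, ht, hA⟩ := hN₀ F (Additive G) (by rw [hcard]; exact hG) fun x => f x.toMul
  rw [hcard] at ht hA
  have hB := hA.submatrix (fun g : G => Additive.ofMul g) (fun g : G => Additive.ofMul g)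
    Additive.ofMul.injective Additive.ofMul.injective
  have hM : (Matrix.of (fun x y : Additive G => f (x - y).toMul)).submatrix
      (fun g : G => Additive.ofMul g) (fun g : G => Additive.ofMul g) = groupCirculant f := by
    ext g h
    change f (Additive.ofMul g - Additive.ofMul h).toMul = f (g * h⁻¹)
    rw [toMul_sub, toMul_ofMul, toMul_ofMul, div_eq_mul_inv]
  rw [hM] at hB
  obtain ⟨L, S, h1, h2, h3, h4⟩ := hB
  have hLS : ∀ g h, L g h ≠ groupCirculant f g h ↔ S g h ≠ 0 := by
    intro g h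
    rw [h1, Matrix.add_apply]
    constructor
    · intro h5 h6
      rw [h6, add_zero] at h5
      exact h5 rfl
    · intro h5 h6
      exact h5 (by simpa using h6.symm)
  refine ⟨t, ht, L, h2, ?_, ?_⟩
  · intro g
    refine le_trans (le_of_eq ?_) (h3 g)
    rw [← Set.ncard_coe_finset]
    congr 2
    ext h
    simp [hLS]
  · intro h
    refine le_trans (le_of_eq ?_) (h4 h)
    rw [← Set.ncard_coe_finset]
    congr 2
    ext g
    simp [hLS]

private lemma rigidity_lt (ε : ℝ) (hε : 0 < ε) : ∃ N₀ : ℕ, ∀ (F : Type) [Field F] [CharZero F]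
    (G : Type) [CommGroup G] [Fintype G], N₀ ≤ Fintype.card G → ∀ f : G → F,
      (rigidity (groupCirculant f) (ε * (Fintype.card G : ℝ)) : ℝ)
        < (Fintype.card G : ℝ) ^ (1 + ε) := by
  classical
  obtain ⟨N₀, hN₀⟩ := uniform ε hε
  refine ⟨N₀, ?_⟩
  intro F _ _ G _ _ hG f
  obtain ⟨t, ht, M', h1, h2, -⟩ := hN₀ F G hG f
  have hpos : (0 : ℝ) < Fintype.card G := by
    exact_mod_cast Fintype.card_pos_iff.mpr ⟨(1 : G)⟩
  have hle : rigidity (groupCirculant f) (ε * (Fintype.card G : ℝ)) ≤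
      ({p : G × G | M' p.1 p.2 ≠ groupCirculant f p.1 p.2} : Set (G × G)).ncard :=
    Nat.sInf_le ⟨M', h1, rfl⟩
  have hsum : (({p : G × G | M' p.1 p.2 ≠ groupCirculant f p.1 p.2} : Set (G × G)).ncard : ℝ) =
      ∑ g : G, (({h | M' g h ≠ groupCirculant f g h} : Set G).ncard : ℝ) := by
    have e1 : ({p : G × G | M' p.1 p.2 ≠ groupCirculant f p.1 p.2} : Set (G × G)) =
        ((Finset.univ.filter fun p : G × G => M' p.1 p.2 ≠ groupCirculant f p.1 p.2 :
          Finset (G × G)) : Set (G × G)) := by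
      ext p
      simp
    rw [e1, Set.ncard_coe_finset, Finset.card_filter, Fintype.sum_prod_type]
    push_cast
    refine Finset.sum_congr rfl fun g _ => ?_
    have e2 : ({h | M' g h ≠ groupCirculant f g h} : Set G) =
        ((Finset.univ.filter fun h : G => M' g h ≠ groupCirculant f g h : Finset G) : Set G) := by
      ext h
      simp
    rw [e2, Set.ncard_coe_finset, Finset.card_filter]
    push_cast
    rfl
  calc (rigidity (groupCirculant f) (ε * (Fintype.card G : ℝ)) : ℝ)
      ≤ (({p : G × G | M' p.1 p.2 ≠ groupCirculant f p.1 p.2} : Set (G × G)).ncard : ℝ) := by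
        exact_mod_cast hle
    _ = ∑ g : G, (({h | M' g h ≠ groupCirculant f g h} : Set G).ncard : ℝ) := hsum
    _ ≤ ∑ _g : G, t := Finset.sum_le_sum fun g _ => h2 g
    _ = (Fintype.card G : ℝ) * t := by
        rw [Finset.sum_const, Finset.card_univ, nsmul_eq_mul]
    _ < (Fintype.card G : ℝ) * (Fintype.card G : ℝ) ^ ε := mul_lt_mul_of_pos_left ht hpos
    _ = (Fintype.card G : ℝ) ^ (1 + ε) := by
        rw [Real.rpow_add hpos, Real.rpow_one]

/-- (1) For every `ε > 0` there is `N₀` such that for every field `F` of characteristic zero, every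
finite abelian group `G` with `|G| ≥ N₀` and every `f : G → F` one can change fewer than `|G|^ε`
entries in every row and in every column of the `G`-circulant matrix of `f`, to values in `F`, and
obtain a matrix of rank at most `ε |G|` over `F`.

(2) Hence its rigidity over `F` at `ε |G|` is less than `|G|^(1+ε)`.

(3) Hence no family of `G_k`-circulant matrices of finite abelian groups is rigid over `F`; for
`F = ℚ` this is the negative answer to Q1. -/
theorem result :
    (∀ ε : ℝ, 0 < ε → ∃ N₀ : ℕ, ∀ (F : Type) [Field F] [CharZero F]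
      (G : Type) [CommGroup G] [Fintype G], N₀ ≤ Fintype.card G → ∀ f : G → F,
        (∃ M' : Matrix G G F,
          (M'.rank : ℝ) ≤ ε * (Fintype.card G : ℝ) ∧
          (∀ g, (({h | M' g h ≠ groupCirculant f g h} : Set G).ncard : ℝ)
            < (Fintype.card G : ℝ) ^ ε) ∧
          (∀ h, (({g | M' g h ≠ groupCirculant f g h} : Set G).ncard : ℝ)
            < (Fintype.card G : ℝ) ^ ε)) ∧
        (rigidity (groupCirculant f) (ε * (Fintype.card G : ℝ)) : ℝ)
          < (Fintype.card G : ℝ) ^ (1 + ε)) ∧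
    (∀ (F : Type) [Field F] [CharZero F] (G : ℕ → Type) [∀ k, CommGroup (G k)]
      [∀ k, Fintype (G k)] (f : ∀ k, G k → F), ¬ RigidFamily fun k => groupCirculant (f k)) := by
  have hfam : ∀ (F : Type) [Field F] [CharZero F] (G : ℕ → Type) [∀ k, CommGroup (G k)]
      [∀ k, Fintype (G k)] (f : ∀ k, G k → F), ¬ RigidFamily fun k => groupCirculant (f k) := by
    intro F _ _ G _ _ f hR
    obtain ⟨hlim, ε, hε, hk⟩ := hR
    obtain ⟨N₀, hN₀⟩ := rigidity_lt ε hε
    obtain ⟨k, hk'⟩ := (hlim.eventually_ge_atTop N₀).exists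
    exact absurd (hk k) (not_le.mpr (hN₀ F (G k) hk' (f k)))
  refine ⟨?_, hfam⟩
  intro ε hε
  obtain ⟨N₁, hN₁⟩ := uniform ε hε
  obtain ⟨N₂, hN₂⟩ := rigidity_lt ε hε
  refine ⟨max N₁ N₂, ?_⟩
  intro F _ _ G _ _ hG f
  obtain ⟨t, ht, M', h1, h2, h3⟩ := hN₁ F G (le_trans (le_max_left _ _) hG) f
  exact ⟨⟨M', h1, fun g => (h2 g).trans_lt ht, fun h => (h3 h).trans_lt ht⟩,
    hN₂ F G (le_trans (le_max_right _ _) hG) f⟩

end Pool.Agent.Results.MP_aac87f_lc.NoRigidGroupCirculant
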